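import Pool.Agent.Lib.H8.Col4b

set_option maxHeartbeats 400000

namespace Pool.Agent.Results.MP_9acee6_nt.Four
open PowerSeries Pool.Agent.Lib.H8.Col4

/-- The power series 1/(1 - x^d) over the integers (d ≥ 1). -/
noncomputable def geo (d : ℕ) : ℤ⟦X⟧ := invOfUnit (1 - X ^ d) 1

/-- S_{k,m}(n): coefficient of x^n in (1-x)^{-m} ∏_i (1-x^{k^i})^{-m(k-1)}; the factors with
i > n are 1 modulo x^{n+1}, so they are left out. -/
noncomputable def S (k m n : ℕ) : ℤ :=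
  coeff n (geo 1 ^ m * ∏ i ∈ Finset.range (n + 1), geo (k ^ i) ^ (m * (k - 1)))

/-- the largest s with 2^s ∣ N. -/
noncomputable def nu2 (N : ℤ) : ℕ := sSup {s : ℕ | (2 : ℤ) ^ s ∣ N}

/-- the 2-kernel is a finite set of sequences. -/
def Auto2 (e : ℕ → ℕ) : Prop :=
  {f : ℕ → ℕ | ∃ i j : ℕ, j < 2 ^ i ∧ f = fun n => e (2 ^ i * n + j)}.Finite

lemma geo_mul (d : ℕ) (hd : d ≠ 0) : geo d * (1 - X ^ d) = 1 := by
  rw [mul_comm]
  exact mul_invOfUnit _ _ (by simp [hd])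

lemma exF (m : ℕ) : ∃ F : ℤ⟦X⟧, F * Phi ^ m = 1 ∧ ∀ n, S 4 m n = coeff n F := by
  have h0 : constantCoeff Phi = 1 := by simpa using coeff0_Phi
  have hF : invOfUnit (Phi ^ m) 1 * Phi ^ m = 1 := by
    rw [mul_comm]
    exact mul_invOfUnit _ _ (by simp [h0])
  refine ⟨_, hF, fun n => ?_⟩
  generalize invOfUnit (Phi ^ m) 1 = F at hF
  obtain ⟨E, h1, h2⟩ := W_prod (n + 1)
  have hI : (geo 1 ^ m * ∏ i ∈ Finset.range (n + 1), geo (4 ^ i) ^ (m * (4 - 1))) * Phi ^ m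
      = E ^ m := by
    rw [Phi, h2]
    have a1 : geo 1 * (1 - X) = 1 := by simpa using geo_mul 1 one_ne_zero
    have a2 : (∏ i ∈ Finset.range (n + 1), geo (4 ^ i) ^ (m * (4 - 1))) *
        (∏ i ∈ Finset.range (n + 1), (1 - X ^ (4 ^ i)) ^ 3) ^ m = 1 := by
      rw [← Finset.prod_pow, ← Finset.prod_mul_distrib]
      refine Finset.prod_eq_one fun i _ => ?_
      rw [← pow_mul, show 3 * m = m * (4 - 1) by ring, ← mul_pow, geo_mul _ (by positivity),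
        one_pow]
    calc _ = (geo 1 * (1 - X)) ^ m * ((∏ i ∈ Finset.range (n + 1), geo (4 ^ i) ^ (m * (4 - 1))) *
        (∏ i ∈ Finset.range (n + 1), (1 - X ^ (4 ^ i)) ^ 3) ^ m) * E ^ m := by
          simp only [mul_pow]; ring
      _ = E ^ m := by rw [a1, a2]; simp
  unfold S
  generalize (geo 1 ^ m * ∏ i ∈ Finset.range (n + 1), geo (4 ^ i) ^ (m * (4 - 1))) = I at hI
  have h3 : X ^ (4 ^ (n + 1)) ∣ I - F := by
    have e : I - F = (E ^ m - 1 ^ m) * F := by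
      linear_combination F * hI - I * hF
    rw [e]
    exact (h1.trans (sub_dvd_pow_sub_pow E 1 m)).mul_right _
  have h4 := X_pow_dvd_iff.1 h3 n
    ((Nat.lt_succ_self n).trans (Nat.lt_pow_self (by norm_num)))
  rw [map_sub] at h4
  linarith

theorem result (m : ℕ) (hm : 0 < m) (h6 : m % 8 ≠ 6) :
    (∃ K : ℕ, ∀ n, ¬ (2 : ℤ) ^ K ∣ S 4 m n) ∧ Auto2 fun n => nu2 (S 4 m n) := by
  obtain ⟨F, hF, hS⟩ := exF m
  obtain ⟨K, hK⟩ := bounded F m hm h6 hF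
  refine ⟨⟨K, fun n => by rw [hS]; exact hK n⟩, ?_⟩
  have hc : ∀ n, (2 : ℤ) ^ (K + 1) ∣ coeff n F - coeff n (Phi ^ ((2 ^ K - 1) * m)) := by
    refine cong F m _ K m hF ?_
    obtain ⟨e, he⟩ : ∃ e, 2 ^ K = e + 1 := ⟨2 ^ K - 1, by
      have : 0 < 2 ^ K := by positivity
      omega⟩
    rw [he]; simp; ring
  obtain ⟨T, hT, hk⟩ := kernel _ (by positivity) _ (fun n => coeff n F) hc
  have key : ∀ (a b : ℤ), ¬ (2 : ℤ) ^ K ∣ a → (2 : ℤ) ^ (K + 1) ∣ a - b →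
      sSup {s : ℕ | s ≤ K ∧ (2 : ℤ) ^ s ∣ b} = nu2 a := by
    intro a b ha h1
    unfold nu2
    congr 1
    ext s
    simp only [Set.mem_setOf_eq]
    constructor
    · rintro ⟨hs, h2⟩
      have := dvd_add ((pow_dvd_pow 2 (show s ≤ K + 1 by omega)).trans h1) h2
      simpa using this
    · intro h2
      have hs : s ≤ K := by
        by_contra hlt
        exact ha ((pow_dvd_pow 2 (by omega)).trans h2)
      refine ⟨hs, ?_⟩
      have := dvd_sub h2 ((pow_dvd_pow 2 (show s ≤ K + 1 by omega)).trans h1)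
      simpa using this
  refine ((hT.image fun f n => sSup {s : ℕ | s ≤ K ∧ (2 : ℤ) ^ s ∣ f n}).union
    ((hT.image fun f n => sSup {s : ℕ | s ≤ K ∧ (2 : ℤ) ^ s ∣ f (2 * n + 0)}).union
    (hT.image fun f n => sSup {s : ℕ | s ≤ K ∧ (2 : ℤ) ^ s ∣ f (2 * n + 1)}))).subset ?_
  rintro _ ⟨i, j, hj, rfl⟩
  rcases Nat.even_or_odd' i with ⟨l, rfl | rfl⟩
  · have e : 2 ^ (2 * l) = 4 ^ l := by rw [pow_mul]; norm_num
    rw [e] at hj ⊢
    obtain ⟨f, hf, h⟩ := hk l j hj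
    left
    refine ⟨f, hf, funext fun n => ?_⟩
    simp only [hS]
    exact key _ _ (hK _) (h n)
  · have e : 2 ^ (2 * l + 1) = 4 ^ l * 2 := by rw [pow_succ, pow_mul]; norm_num
    rw [e] at hj ⊢
    right
    by_cases hl : j < 4 ^ l
    · obtain ⟨f, hf, h⟩ := hk l j hl
      left
      refine ⟨f, hf, funext fun n => ?_⟩
      simp only [hS]
      rw [show 4 ^ l * 2 * n + j = 4 ^ l * (2 * n + 0) + j by ring]
      exact key _ _ (hK _) (h _)
    · obtain ⟨j', rfl⟩ : ∃ j', j = 4 ^ l + j' := ⟨j - 4 ^ l, by omega⟩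
      obtain ⟨f, hf, h⟩ := hk l j' (by omega)
      right
      refine ⟨f, hf, funext fun n => ?_⟩
      simp only [hS]
      rw [show 4 ^ l * 2 * n + (4 ^ l + j') = 4 ^ l * (2 * n + 1) + j' by ring]
      exact key _ _ (hK _) (h _)

end Pool.Agent.Results.MP_9acee6_nt.Four
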